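import Pool.Agent.N469.GG.Deg
import Pool.Agent.R460.GP.Conv
import Pool.Agent.R460.GR.Conv
import Pool.Agent.R460.GS.Appl

/-!
# The Goldbach graphs: almost all the vertices of every residue class are in the bounded part

Definitions used, from the starting file `Pool.Agent.Results.MP_443e5f_co.AlmostAllVertices`: the finite Goldbach graph
`goldbach n` on `{0, 2, 4, …, 2 n}` and the finite near Goldbach graph `nearGoldbach n` on `{2, 4, …, 2 n}`.

The starting file shows that after the removal of at most `n / log ^ U n` vertices (some set of vertices, about which nothing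
is known; it may contain whole residue classes to the moduli `q > log ^ (U + 1) n`) there are at most `C` components, all of
diameter at most `C`. Here all the vertices of large degree are added to the bounded part, and it is shown that the exceptional
vertices are well distributed in the residue classes to all the moduli up to `n ^ (7 / 10 - ρ)`.

The degree is the number of the representations of the vertex as a sum or as a difference of two primes. The proof combines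
the theorems on Goldbach numbers and on prime pairs in residue classes of the starting files (`Pool.Agent.R460`).
-/

set_option autoImplicit false

namespace Pool.Agent.Results.MP_443e5f_co.EveryProgression

open Finset
open Pool.Agent.Results.MP_443e5f_co.AlmostAllVertices (goldbach nearGoldbach)

/-- All the vertices of `G` with at most `n / (log n) ^ U` exceptions belong to `X`, the subgraph of `G` induced on `X` has at
most `C` connected components, any two vertices of the same component of this subgraph are at a distance of at most `C` in it,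
and every vertex of `X` has at least `c n / (log n) ^ 2` neighbours in `X`. -/
def Bounded {V : Type} (G : SimpleGraph V) (X : Set V) (C : ℕ) (c : ℝ) (U n : ℕ) : Prop :=
  (Xᶜ.ncard : ℝ) ≤ n / Real.log n ^ U ∧
    Nat.card (G.induce X).ConnectedComponent ≤ C ∧
    (∀ u v : X, (G.induce X).Reachable u v → (G.induce X).dist u v ≤ C) ∧
    ∀ u : X, c * (n / Real.log n ^ 2) ≤ (((G.induce X).neighborSet u).ncard : ℝ)

/-- `a` is a vertex of the Goldbach graph outside `X` or a vertex of the near Goldbach graph outside `Y`. -/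
def Outside (n : ℕ) (X : Set {a : ℕ // Even a ∧ a ≤ 2 * n}) (Y : Set {a : ℕ // Even a ∧ 2 ≤ a ∧ a ≤ 2 * n}) (a : ℕ) : Prop :=
  (∃ h : Even a ∧ a ≤ 2 * n, (⟨a, h⟩ : {a : ℕ // Even a ∧ a ≤ 2 * n}) ∉ X) ∨
    ∃ h : Even a ∧ 2 ≤ a ∧ a ≤ 2 * n, (⟨a, h⟩ : {a : ℕ // Even a ∧ 2 ≤ a ∧ a ≤ 2 * n}) ∉ Y

/-- the number of the primes `p` in the upper half such that `m - p` is a prime is large -/
def Upper (m : ℕ) : Prop :=
  1 / 20 * (((m : ℝ) - ((m / 2 : ℕ) : ℝ)) / Real.log m ^ 2) ≤ (Pool.Agent.W93.PG.cnt m (m / 2) m : ℝ)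

lemma upper_of : ∃ n₀ : ℕ, ∀ m : ℕ, n₀ ≤ m → 2 ∣ m → Pool.Agent.R460.GS.WinL 1 m → Upper m := by
  obtain ⟨n1, h1⟩ := Pool.Agent.H373R2.T7.ev_L' 2
  refine ⟨n1 + 2, fun m hm _ hw => ?_⟩
  have a1 := h1 m (by omega)
  have h2 : 2 * (m / 2) ≤ m := by omega
  have h3 : 2 * ((m / 2 : ℕ) : ℝ) ≤ m := by exact_mod_cast h2
  have hm0 : (0 : ℝ) ≤ m := Nat.cast_nonneg _
  have h4 := hw (m / 2) m (by omega) le_rfl (by
    rw [pow_one]
    refine (div_le_div_of_nonneg_left hm0 (by norm_num) a1).trans ?_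
    linarith)
  unfold Upper
  refine le_trans ?_ h4
  have h5 := Pool.Agent.R460.GS.one_le_sing m
  apply mul_le_mul_of_nonneg_left _ (by norm_num)
  apply div_le_div_of_nonneg_right _ (by positivity)
  nlinarith

/-- the degrees -/
lemma deg : ∃ c₁ : ℝ, 0 < c₁ ∧ ∃ n₀ : ℕ, ∀ n : ℕ, n₀ ≤ n →
    (c₁ * (n / Real.log n ^ 2) ≤ ((Pool.Agent.N469.GG.Nb n 0).card : ℝ)) ∧
    (∀ A v : ℕ, Even v → 2 ≤ v → v ≤ n → Pool.Agent.R460.GP.AllWindows (A + 1) n v →
      c₁ * (n / Real.log n ^ 2) ≤ ((Pool.Agent.N469.GG.Nb n v).card : ℝ)) ∧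
    (∀ v : ℕ, Even v → n < v → v ≤ 2 * n → Upper v →
      c₁ * (n / Real.log n ^ 2) ≤ ((Pool.Agent.N469.GG.Nb n v).card : ℝ)) := by
  obtain ⟨c, hc, N, hN⟩ := Pool.Agent.N469.GG.deg_low
  obtain ⟨n1, h1⟩ := Pool.Agent.H373R2.T7.ev_L' 2
  refine ⟨min c (1 / 160), lt_min hc (by norm_num), N + n1 + 16, fun n hn => ?_⟩
  obtain ⟨d0, -, -⟩ := hN n (by omega)
  have a1 := h1 n (by omega)
  have hn16 : (16 : ℝ) ≤ n := by exact_mod_cast (by omega : 16 ≤ n)
  have hn0 : (0 : ℝ) < n := by linarith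
  obtain ⟨L, hL⟩ : ∃ L, L = Real.log (n : ℝ) := ⟨_, rfl⟩
  rw [← hL] at a1 d0 ⊢
  have hL0 : 0 < L := by linarith
  have hpos : 0 < (n : ℝ) / L ^ 2 := by positivity
  have hcc : min c (1 / 160) * ((n : ℝ) / L ^ 2) ≤ c * (n / L ^ 2) := mul_le_mul_of_nonneg_right (min_le_left _ _) hpos.le
  have hc16 : min c (1 / 160) * ((n : ℝ) / L ^ 2) ≤ 1 / 160 * (n / L ^ 2) := mul_le_mul_of_nonneg_right (min_le_right _ _) hpos.le
  refine ⟨hcc.trans d0, fun A v hv h2v hvn hw => ?_, fun v hv hvn hv2 hw => ?_⟩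
  · refine hc16.trans ?_
    have e1 := Pool.Agent.N469.GG.nb_pair n v hv h2v hvn
    have e2 := hw 0 ((n : ℝ) / 2) le_rfl (by linarith) (by
      rw [← hL, sub_zero]
      refine div_le_div_of_nonneg_left hn0.le (by norm_num) ?_
      exact a1.trans (le_self_pow₀ (by linarith) (by omega)))
    rw [Pool.Agent.R460.GP.pairs_eq v 0 ((n : ℝ) / 2) le_rfl (by linarith), ← hL, sub_zero] at e2
    have e3 : ⌊(n : ℝ) / 2⌋₊ = n / 2 := Nat.floor_div_ofNat (n : ℝ) 2 ▸ by simp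
    have e4 : Pool.Agent.R460.GP.cntP v ⌊(0 : ℝ)⌋₊ ⌊(n : ℝ) / 2⌋₊ ≤ (Pool.Agent.N469.GG.Nb n v).card := by
      refine le_trans ?_ e1
      rw [e3, Nat.floor_zero]
      unfold Pool.Agent.R460.GP.cntP
      apply card_le_card
      intro p hp
      rw [mem_filter, mem_Ioc] at hp
      rw [mem_filter, mem_Icc]
      exact ⟨⟨by omega, hp.1.2⟩, hp.2⟩
    have e5 : (Pool.Agent.R460.GP.cntP v ⌊(0 : ℝ)⌋₊ ⌊(n : ℝ) / 2⌋₊ : ℝ) ≤ ((Pool.Agent.N469.GG.Nb n v).card : ℝ) := by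
      exact_mod_cast e4
    refine le_trans ?_ (e2.trans e5)
    have hs := Pool.Agent.R460.GS.one_le_sing v
    obtain ⟨S, hS⟩ : ∃ S, S = Pool.Agent.H560R3.GB.sing v := ⟨_, rfl⟩
    rw [← hS] at hs ⊢
    have e6 : 1 / 20 * (S * ((n : ℝ) / 2) / L ^ 2) = S * (1 / 40 * ((n : ℝ) / L ^ 2)) := by ring
    rw [e6]
    nlinarith
  · refine hc16.trans ?_
    have e1 := Pool.Agent.N469.GG.nb_sum n v hv (by omega) hv2
    have e3 : (Pool.Agent.W93.PG.cnt v (v / 2) v : ℝ) ≤ ((Pool.Agent.N469.GG.Nb n v).card : ℝ) := by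
      unfold Pool.Agent.W93.PG.cnt
      exact_mod_cast e1
    refine le_trans ?_ e3
    unfold Upper at hw
    refine le_trans ?_ hw
    have hna : (n : ℝ) ≤ v := by exact_mod_cast hvn.le
    have ha2 : (v : ℝ) ≤ 2 * n := by exact_mod_cast hv2
    have ha0 : (0 : ℝ) < v := by linarith
    have hLa2 : Real.log (v : ℝ) ≤ 2 * L := by
      have f1 : Real.log (v : ℝ) ≤ Real.log ((n : ℝ) ^ 2) := Real.log_le_log ha0 (by nlinarith)
      rw [Real.log_pow, ← hL] at f1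
      push_cast at f1
      exact f1
    have hLa : L ≤ Real.log (v : ℝ) := by rw [hL]; exact Real.log_le_log hn0 hna
    have hhalf : (v : ℝ) / 2 ≤ (v : ℝ) - ((v / 2 : ℕ) : ℝ) := by
      have : 2 * (v / 2) ≤ v := by omega
      have : 2 * ((v / 2 : ℕ) : ℝ) ≤ v := by exact_mod_cast this
      linarith
    have hLa0 : 0 < Real.log (v : ℝ) := by linarith
    have f2 : (n : ℝ) / 2 / (2 * L) ^ 2 ≤ ((v : ℝ) - ((v / 2 : ℕ) : ℝ)) / Real.log v ^ 2 :=
      div_le_div₀ (by linarith) (by linarith) (by positivity) (pow_le_pow_left₀ hLa0.le hLa2 2)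
    have f4 : (n : ℝ) / 2 / (2 * L) ^ 2 = 1 / 8 * (n / L ^ 2) := by field_simp; ring
    linarith

/-- There are absolute constants `C` and `c > 0` such that for every `U` there are sets `X n` of vertices of the finite Goldbach
graph `G_n` and `Y n` of vertices of the finite near Goldbach graph `G(n)` with the following properties.

(0) For all large `n`, all but at most `n / log ^ U n` vertices belong to `X n`, the subgraph induced on `X n` has at most `C`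
components, all of diameter at most `C`, and all its degrees are at least `c n / log ^ 2 n`; and the same for `Y n`.

(1) Let `ρ > 0`, `A` and `T` be fixed. Then there is `e` such that for every `B` and all large `n` there is a set `D` of at most
`log ^ e n` integers `d > log ^ B n` with the following property. For every modulus `1 ≤ q ≤ n ^ (7 / 10 - ρ)` and every residue
class `a` modulo `q`, if `gcd (a, q) ≤ log ^ T n` or if no element of `D` divides `q`, then at most `n / (q log ^ A n)` integers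
of the class `a` modulo `q` are vertices outside `X n` or outside `Y n`. -/
theorem result : ∃ (C : ℕ) (c : ℝ), 0 < c ∧ ∀ U : ℕ, ∃ (X : ∀ n : ℕ, Set {a : ℕ // Even a ∧ a ≤ 2 * n})
    (Y : ∀ n : ℕ, Set {a : ℕ // Even a ∧ 2 ≤ a ∧ a ≤ 2 * n}),
    (∃ n₀ : ℕ, ∀ n : ℕ, n₀ ≤ n → Bounded (goldbach n) (X n) C c U n ∧ Bounded (nearGoldbach n) (Y n) C c U n) ∧
    ∀ (ρ : ℝ) (A T : ℕ), 0 < ρ → ∃ e : ℕ, ∀ B : ℕ, ∃ n₀ : ℕ, ∀ n : ℕ, n₀ ≤ n →
      ∃ D : Finset ℕ, (D.card : ℝ) ≤ Real.log n ^ e ∧ (∀ d ∈ D, Real.log n ^ B < (d : ℝ)) ∧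
        ∀ q : ℕ, 1 ≤ q → (q : ℝ) ≤ (n : ℝ) ^ (7 / 10 - ρ) → ∀ a : ℤ,
          ((Int.gcd a q : ℝ) ≤ Real.log n ^ T ∨ ∀ d ∈ D, ¬ d ∣ q) →
          (({v : ℕ | (v : ℤ) ≡ a [ZMOD q] ∧ Outside n (X n) (Y n) v}.ncard : ℕ) : ℝ) ≤ n / (q * Real.log n ^ A) := by
  classical
  obtain ⟨C, c, hc, hall⟩ := Pool.Agent.Results.MP_443e5f_co.AlmostAllVertices.result
  obtain ⟨c₁, hc₁, n₁, hdeg⟩ := deg
  refine ⟨C * (C + 3) + C, min c (c₁ / 2), lt_min hc (by positivity), fun U => ?_⟩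
  obtain ⟨n₂, h2⟩ := hall (U + 3)
  obtain ⟨n₃, h3⟩ := Pool.Agent.H373R2.T7.ev_L' (2 / c₁ + 1)
  have hex : ∀ n : ℕ, ∃ (X : Set {a : ℕ // Even a ∧ a ≤ 2 * n}) (Y : Set {a : ℕ // Even a ∧ 2 ≤ a ∧ a ≤ 2 * n}),
      n₁ + n₂ + n₃ + 2 ≤ n → (Bounded (goldbach n) X (C * (C + 3) + C) (min c (c₁ / 2)) U n ∧
        Bounded (nearGoldbach n) Y (C * (C + 3) + C) (min c (c₁ / 2)) U n) ∧
        (∀ a, c₁ * (n / Real.log n ^ 2) ≤ (((goldbach n).neighborSet a).ncard : ℝ) → a ∈ X) ∧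
        (∀ a, c₁ * (n / Real.log n ^ 2) ≤ (((nearGoldbach n).neighborSet a).ncard : ℝ) → a ∈ Y) := by
    intro n
    by_cases hn : n₁ + n₂ + n₃ + 2 ≤ n
    · obtain ⟨q1, q2⟩ := h2 n (by omega)
      have a3 := h3 n (by omega)
      have hn0 : (0 : ℝ) < n := by exact_mod_cast (by omega : 0 < n)
      have hL1 : 1 ≤ Real.log (n : ℝ) := by
        have : 0 < 2 / c₁ := by positivity
        linarith
      have hL0 : 0 < Real.log (n : ℝ) := by linarith
      have hpos : 0 < (n : ℝ) / Real.log n ^ 2 := by positivity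
      have hlarge : (n : ℝ) / Real.log n ^ (U + 3) ≤ c₁ / 2 * (n / Real.log n ^ 2) := by
        have e1 : (n : ℝ) / Real.log n ^ (U + 3) = (1 / Real.log n ^ (U + 1)) * (n / Real.log n ^ 2) := by
          rw [show U + 3 = (U + 1) + 2 by ring, pow_add _ (U + 1) 2]
          field_simp
        rw [e1]
        apply mul_le_mul_of_nonneg_right _ hpos.le
        rw [div_le_iff₀ (by positivity)]
        have e2 : Real.log (n : ℝ) ≤ Real.log n ^ (U + 1) := le_self_pow₀ hL1 (by omega)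
        have e3 : 2 / c₁ ≤ Real.log (n : ℝ) := by linarith
        rw [div_le_iff₀ hc₁] at e3
        nlinarith
      obtain ⟨X, ⟨x1, x2, x3, x4⟩, x5⟩ := Pool.Agent.N469.GG.absorb (goldbach n) C c c₁ (U + 3) n q1 hc₁ hpos hlarge
      obtain ⟨Y, ⟨y1, y2, y3, y4⟩, y5⟩ := Pool.Agent.N469.GG.absorb (nearGoldbach n) C c c₁ (U + 3) n q2 hc₁ hpos hlarge
      have hU : (n : ℝ) / Real.log n ^ (U + 3) ≤ n / Real.log n ^ U :=
        div_le_div_of_nonneg_left hn0.le (by positivity) (pow_le_pow_right₀ hL1 (by omega))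
      exact ⟨X, Y, fun _ => ⟨⟨⟨x1.trans hU, x2, x3, x4⟩, ⟨y1.trans hU, y2, y3, y4⟩⟩, x5, y5⟩⟩
    · exact ⟨Set.univ, Set.univ, fun h => absurd h hn⟩
  choose X Y hXY using hex
  refine ⟨X, Y, ⟨n₁ + n₂ + n₃ + 2, fun n hn => (hXY n hn).1⟩, fun ρ A T hρ => ?_⟩
  -- the engines
  obtain ⟨e1, he1⟩ := Pool.Agent.R460.GP.pairs_few ρ hρ (A + 1) T
  obtain ⟨e2, he2⟩ := Pool.Agent.R460.GR.class_few_reg Upper 1 upper_of ρ hρ (A + 1)
  obtain ⟨x₃, hx₃⟩ := Pool.Agent.R460.GS.class_few Upper 1 upper_of ρ hρ (A + 1) T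
  obtain ⟨n₄, h4⟩ := Pool.Agent.H373R2.T7.ev_L' (2 ^ e2 + 3)
  refine ⟨e1 + e2 + 1, fun B => ?_⟩
  obtain ⟨x₁, hx₁⟩ := he1 B
  obtain ⟨x₂, hx₂⟩ := he2 B
  refine ⟨n₁ + n₂ + n₃ + n₄ + ⌈x₁⌉₊ + ⌈x₂⌉₊ + ⌈x₃⌉₊ + 16, fun n hn => ?_⟩
  obtain ⟨-, hX, hY⟩ := hXY n (by omega)
  obtain ⟨d0, d1, d2⟩ := hdeg n (by omega)
  have hL := h4 n (by omega)
  have hn16 : (16 : ℝ) ≤ n := by exact_mod_cast (by omega : 16 ≤ n)
  have hn0 : (0 : ℝ) < n := by linarith
  have hx1n : x₁ ≤ n := (Nat.le_ceil x₁).trans (by exact_mod_cast (by omega : ⌈x₁⌉₊ ≤ n))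
  have hx2n : x₂ ≤ 2 * n := (Nat.le_ceil x₂).trans (by exact_mod_cast (by omega : ⌈x₂⌉₊ ≤ 2 * n))
  have hx3n : x₃ ≤ 2 * n := (Nat.le_ceil x₃).trans (by exact_mod_cast (by omega : ⌈x₃⌉₊ ≤ 2 * n))
  obtain ⟨D1, hD1c, hD1l, hD1⟩ := hx₁ n hx1n
  obtain ⟨D2, hD2c, hD2l, hD2⟩ := hx₂ (2 * n) hx2n
  have h3' := hx₃ (2 * n) hx3n
  obtain ⟨L, hLd⟩ : ∃ L, L = Real.log (n : ℝ) := ⟨_, rfl⟩
  obtain ⟨M, hMd⟩ : ∃ M, M = Real.log (2 * (n : ℝ)) := ⟨_, rfl⟩
  rw [← hLd] at hL hD1c hD1l hD1 ⊢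
  rw [← hMd] at hD2c hD2l hD2 h3'
  have h2e : (0 : ℝ) < 2 ^ e2 := by positivity
  have hL0 : 0 < L := by linarith
  have hL1 : 1 ≤ L := by linarith
  have hLM : L ≤ M := by rw [hLd, hMd]; exact Real.log_le_log hn0 (by linarith)
  have hM2 : M ≤ 2 * L := by
    have f1 : M ≤ Real.log ((n : ℝ) ^ 2) := by rw [hMd]; exact Real.log_le_log (by linarith) (by nlinarith)
    rw [Real.log_pow, ← hLd] at f1
    push_cast at f1
    exact f1
  have hM0 : 0 < M := by linarith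
  refine ⟨D1 ∪ D2, ?_, ?_, ?_⟩
  · have f1 : ((D1 ∪ D2).card : ℝ) ≤ D1.card + D2.card := by exact_mod_cast card_union_le D1 D2
    have f2 : M ^ e2 ≤ 2 ^ e2 * L ^ e2 := by
      rw [← mul_pow]
      exact pow_le_pow_left₀ hM0.le hM2 _
    have f3 : L ^ e1 ≤ L ^ (e1 + e2) := pow_le_pow_right₀ hL1 (by omega)
    have f4 : L ^ e2 ≤ L ^ (e1 + e2) := pow_le_pow_right₀ hL1 (by omega)
    have f5 : 2 ^ e2 * L ^ e2 ≤ 2 ^ e2 * L ^ (e1 + e2) := mul_le_mul_of_nonneg_left f4 h2e.le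
    have f6 : (0 : ℝ) < L ^ (e1 + e2) := by positivity
    calc ((D1 ∪ D2).card : ℝ) ≤ (1 + 2 ^ e2) * L ^ (e1 + e2) := by linarith
      _ ≤ L * L ^ (e1 + e2) := mul_le_mul_of_nonneg_right (by linarith) f6.le
      _ = L ^ (e1 + e2 + 1) := by rw [pow_succ']
  · intro d hd
    rcases mem_union.1 hd with h | h
    · exact hD1l d h
    · exact lt_of_le_of_lt (pow_le_pow_left₀ hL0.le hLM _) (hD2l d h)
  intro q hq hqn a hor
  have hq0 : (0 : ℝ) < q := by exact_mod_cast hq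
  have hq2n : (q : ℝ) ≤ (2 * (n : ℝ)) ^ (7 / 10 - ρ) := by
    rcases le_or_gt 0 (7 / 10 - ρ) with hc' | hc'
    · exact hqn.trans (Real.rpow_le_rpow hn0.le (by linarith) hc')
    · exfalso
      have g3 : (n : ℝ) ^ (7 / 10 - ρ) < 1 := Real.rpow_lt_one_of_one_lt_of_neg (by linarith) hc'
      have g4 : (1 : ℝ) ≤ q := by exact_mod_cast hq
      linarith
  -- the small vertices
  have hsmall := hD1 q hq hqn a (by
    rcases hor with h | h
    · exact Or.inl h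
    · exact Or.inr fun d hd => h d (mem_union_left _ hd))
  -- the large vertices
  have hbig : ({m : ℕ | 0 < m ∧ (m : ℝ) ≤ 2 * n ∧ 2 ∣ m ∧ (m : ℤ) ≡ a [ZMOD q] ∧ ¬ Upper m}).Finite ∧
      (({m : ℕ | 0 < m ∧ (m : ℝ) ≤ 2 * n ∧ 2 ∣ m ∧ (m : ℤ) ≡ a [ZMOD q] ∧ ¬ Upper m}.ncard : ℕ) : ℝ) ≤
        2 * n / (q * M ^ (A + 1)) := by
    rcases hor with h | h
    · exact h3' q hq hq2n a (h.trans (pow_le_pow_left₀ hL0.le hLM _))
    · exact hD2 q hq hq2n (fun d hd => h d (mem_union_right _ hd)) a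
  obtain ⟨s1, s2⟩ := hsmall
  obtain ⟨b1, b2⟩ := hbig
  have hsub : {v : ℕ | (v : ℤ) ≡ a [ZMOD q] ∧ Outside n (X n) (Y n) v} ⊆
      Pool.Agent.R460.GP.exceptional (A + 1) n q a ∪
        {m : ℕ | 0 < m ∧ (m : ℝ) ≤ 2 * n ∧ 2 ∣ m ∧ (m : ℤ) ≡ a [ZMOD q] ∧ ¬ Upper m} := by
    rintro v ⟨hva, hv⟩
    have hlow : Even v ∧ v ≤ 2 * n ∧ ((Pool.Agent.N469.GG.Nb n v).card : ℝ) < c₁ * (n / L ^ 2) := by
      rcases hv with ⟨h, ha⟩ | ⟨h, ha⟩
      · refine ⟨h.1, h.2, ?_⟩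
        by_contra hcon
        push Not at hcon
        refine ha (hX _ ?_)
        rw [← hLd]
        refine hcon.trans ?_
        exact_mod_cast Pool.Agent.N469.GG.nb_gold n v h
      · refine ⟨h.1, h.2.2, ?_⟩
        by_contra hcon
        push Not at hcon
        refine ha (hY _ ?_)
        rw [← hLd]
        refine hcon.trans ?_
        exact_mod_cast Pool.Agent.N469.GG.nb_near n v h
    obtain ⟨hev, hv2, hdegv⟩ := hlow
    rw [← hLd] at d0 d1 d2
    rcases Nat.eq_zero_or_pos v with h0 | h0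
    · exfalso
      rw [h0] at hdegv
      linarith
    have h2v : 2 ∣ v := hev.two_dvd
    have h2le : 2 ≤ v := Nat.le_of_dvd h0 h2v
    rcases le_or_gt v n with h5 | h5
    · left
      refine ⟨h0, by exact_mod_cast h5, h2v, hva, fun hw => ?_⟩
      have := d1 A v hev h2le h5 hw
      linarith
    · right
      refine ⟨h0, by exact_mod_cast hv2, h2v, hva, fun hw => ?_⟩
      have := d2 v hev h5 hv2 hw
      linarith
  have hcard : (({v : ℕ | (v : ℤ) ≡ a [ZMOD q] ∧ Outside n (X n) (Y n) v}.ncard : ℕ) : ℝ) ≤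
      n / (q * L ^ (A + 1)) + 2 * n / (q * M ^ (A + 1)) := by
    have g1 := Set.ncard_le_ncard hsub (s1.union b1)
    have g2 := Set.ncard_union_le (Pool.Agent.R460.GP.exceptional (A + 1) n q a)
      {m : ℕ | 0 < m ∧ (m : ℝ) ≤ 2 * n ∧ 2 ∣ m ∧ (m : ℤ) ≡ a [ZMOD q] ∧ ¬ Upper m}
    have g3 : (({v : ℕ | (v : ℤ) ≡ a [ZMOD q] ∧ Outside n (X n) (Y n) v}.ncard : ℕ) : ℝ) ≤
        ((Pool.Agent.R460.GP.exceptional (A + 1) n q a).ncard : ℝ) +
        (({m : ℕ | 0 < m ∧ (m : ℝ) ≤ 2 * n ∧ 2 ∣ m ∧ (m : ℤ) ≡ a [ZMOD q] ∧ ¬ Upper m}.ncard : ℕ) : ℝ) := by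
      exact_mod_cast g1.trans g2
    linarith
  refine hcard.trans ?_
  have k1 : 2 * (n : ℝ) / (q * M ^ (A + 1)) ≤ 2 * n / (q * L ^ (A + 1)) := by
    apply div_le_div_of_nonneg_left (by positivity) (by positivity)
    exact mul_le_mul_of_nonneg_left (pow_le_pow_left₀ hL0.le hLM _) hq0.le
  have k2 : (n : ℝ) / (q * L ^ (A + 1)) + 2 * n / (q * L ^ (A + 1)) = (3 / L) * (n / (q * L ^ A)) := by
    rw [pow_succ]
    field_simp
    ring
  have k3 : 3 / L ≤ 1 := by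
    rw [div_le_one hL0]
    linarith
  have k4 : 0 ≤ (n : ℝ) / (q * L ^ A) := by positivity
  calc (n : ℝ) / (q * L ^ (A + 1)) + 2 * n / (q * M ^ (A + 1)) ≤ (n : ℝ) / (q * L ^ (A + 1)) + 2 * n / (q * L ^ (A + 1)) := by
        linarith
    _ = (3 / L) * (n / (q * L ^ A)) := k2
    _ ≤ 1 * (n / (q * L ^ A)) := mul_le_mul_of_nonneg_right k3 k4
    _ = n / (q * L ^ A) := one_mul _

end Pool.Agent.Results.MP_443e5f_co.EveryProgression
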