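import Pool.Agent.P8H49.GM.Fin2
import Pool.Agent.P8H7.GM.Prod
import Pool.Agent.P8H7.GM.Avg
import Pool.Agent.P8H7.GM.Var
import Pool.Agent.P8H54.GM.Mert
import Pool.Agent.P8H54.GM.Sum
import Pool.Agent.P8H86.GM.Beta
import Pool.Agent.P8H86.GM.Allv
import Pool.Agent.P8H86.GM.Alld
import Pool.Agent.P8H84.GM.Maj
import Pool.Agent.P8H84.GM.Pp2
import Pool.Agent.R521.GG.A
import Pool.Agent.R521.GG.B
import Pool.Agent.R521.GG.Mert
import Pool.Agent.R521.GG.Mom
import Pool.Agent.R521.GG.Codeg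
import Pool.Agent.R521.GG.Wsum
import Pool.Agent.R906.GG.Gold
import Pool.Agent.R906.GG.Twin

set_option autoImplicit false

/-!
# The Goldbach graphs with one of the two primality conditions relaxed are connected

Authors: helper49, helper7, helper54, helper79, helper84, helper86.

If one of the two conditions which define the edges of the finite Goldbach graph `G_n` (or of the finite near Goldbach
graph `G(n)`) is relaxed, so that the number `(a + b)/2` (or, in a second graph, the number `|a - b|/2`) is allowed to be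
a product of at most `K` primes, all of them larger than `n ^ (1 / K)`, then for all large `n` the graph is
connected and its diameter is at most `21`. The other one of the two numbers still has to be a prime.

Proof. In the graph in which the number `(a + b)/2` is an almost prime, weighted as in the theorem of the starting file
`AlmostAllVertices`, all vertices but `ε n` lie in boundedly many clusters. For almost all pairs of vertices `a`, `a + h` of
the same class modulo `W` the number of common neighbours is at least of the expected order for a positive proportion of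
the `a`: prime pairs `x`, `x + h` (bilinear estimates, the fundamental lemma for primes), and a second moment over `a`
(fundamental lemma for four linear forms, majorants in average). Every vertex has `≥ δ n / (log n)^2` neighbours (lower
bound sieve for primes minus or plus a fixed number), and this connects all vertices.
-/

namespace Pool.Agent.Results.MP_443e5f_co.MixedGoldbachGraphs

open Finset
open Pool.Agent.P8H49.GM

/-- `m` is an odd prime less than `2 n`. -/
def OddPrimeBelow (n m : ℕ) : Prop := m.Prime ∧ Odd m ∧ m < 2 * n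

/-- `1 < m < 2 n`, and `m` is a product of at most `K` primes, all of which are larger than `n ^ (1 / K)`. -/
def AlmostPrime (K n m : ℕ) : Prop :=
  1 < m ∧ m < 2 * n ∧ m.primeFactorsList.length ≤ K ∧ ∀ p : ℕ, p.Prime → p ∣ m → n < p ^ K

/-- The graph on `V` in which distinct `a`, `b` are adjacent iff `(a + b)/2` has the property `S` and `|a - b|/2` has the
property `D`. -/
def graph (V : Set ℕ) (S D : ℕ → Prop) : SimpleGraph V where
  Adj a b := a ≠ b ∧ S (((a : ℕ) + b) / 2) ∧ D (Nat.dist a b / 2)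
  symm := ⟨fun a b h => ⟨h.1.symm, by rw [add_comm (b : ℕ)]; exact h.2.1, by rw [Nat.dist_comm]; exact h.2.2⟩⟩
  loopless := ⟨fun _ h => h.1 rfl⟩

/-- The vertices `0, 2, 4, …, 2 n` of the finite Goldbach graph `G_n`. -/
def V0 (n : ℕ) : Set ℕ := {a | Even a ∧ a ≤ 2 * n}

/-- The vertices `2, 4, …, 2 n` of the finite near Goldbach graph `G(n)`. -/
def V2 (n : ℕ) : Set ℕ := {a | Even a ∧ 2 ≤ a ∧ a ≤ 2 * n}

/-- The graph is connected and any two vertices have a distance of at most `21`. -/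
def Small {V : Type} (G : SimpleGraph V) : Prop := G.Connected ∧ ∀ u v, G.dist u v ≤ 21

/-- There is a number `K` such that for all large `n` the following four graphs are connected with a diameter of at most
`21`: the graphs which arise from the finite Goldbach graph `G_n` if `|a - b|/2` (respectively `(a + b)/2`) is allowed to
be either an odd prime or an almost prime (a product of at most `K` primes, all larger than `n ^ (1 / K)`), while
the other one of the two numbers is an odd prime; and the graphs which arise in the same way from the finite near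
Goldbach graph `G(n)`. -/
theorem result : ∃ K N : ℕ, ∀ n : ℕ, N ≤ n →
    Small (graph (V0 n) (OddPrimeBelow n) (fun m => OddPrimeBelow n m ∨ AlmostPrime K n m)) ∧
    Small (graph (V0 n) (fun m => OddPrimeBelow n m ∨ AlmostPrime K n m) (OddPrimeBelow n)) ∧
    Small (graph (V2 n) (fun m => m = 1 ∨ OddPrimeBelow n m)
      (fun m => m = 1 ∨ OddPrimeBelow n m ∨ AlmostPrime K n m)) ∧
    Small (graph (V2 n) (fun m => m = 1 ∨ OddPrimeBelow n m ∨ AlmostPrime K n m)
      (fun m => m = 1 ∨ OddPrimeBelow n m)) := by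
  classical
  have hmert := Pool.Agent.R521.GG.t_mert
  have hmom := Pool.Agent.R521.GG.t_mom
  have hcodeg := Pool.Agent.R521.GG.t_codeg hmert
  have hwsum := Pool.Agent.R521.GG.t_wsum hmert
  have hgold := Pool.Agent.R906.GGF.t_gold
  have htwin := Pool.Agent.R906.GGG.t_twin
  have hpeel := Pool.Agent.R521.GG.t_peel
  have hprod := Pool.Agent.P8H7.GM.t_prod
  have havg := Pool.Agent.P8H7.GM.t_avg
  have hvar := Pool.Agent.P8H7.GM.t_var hprod
  have hmaj := Pool.Agent.P8H84.GM.t_maj hprod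
  have hsum := Pool.Agent.P8H54.GM.t_sum hmaj havg (Pool.Agent.P8H54.GM.t_mertc hmert)
  have hbeta := Pool.Agent.P8H86.GM.t_beta
  have hpp : S_PP2 := Pool.Agent.P8H84.GM.t_pp2
  have hLS := link_S hvar hsum hpp hbeta havg hprod
  have hLD := link_D hvar hsum hpp hbeta havg hprod
  have hAS : S_ALLG MS := by
    obtain ⟨K0, δ, hδ, n0, h⟩ := Pool.Agent.P8H86.GM.t_allv2
    refine ⟨K0, δ, hδ, n0, fun n hn K hK a ha => (h n hn K hK a ha).trans ?_⟩
    exact_mod_cast card_le_card (fun b hb => by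
      simp only [mem_filter] at hb ⊢
      exact ⟨hb.1, hb.2.1, hb.2.2.1, Or.inr hb.2.2.2⟩)
  have hAD : S_ALLG MD := by
    obtain ⟨K0, δ, hδ, n0, h⟩ := Pool.Agent.P8H86.GM.t_alld
    refine ⟨K0, δ, hδ, n0, fun n hn K hK a ha => (h n hn K hK a ha).trans ?_⟩
    exact_mod_cast card_le_card (fun b hb => by
      simp only [mem_filter] at hb ⊢
      exact ⟨hb.1, hb.2.1, hb.2.2.1, Or.inr hb.2.2.2⟩)
  obtain ⟨Ks, hKs⟩ := dia_of hmom hcodeg hwsum hgold htwin hpeel MS (fun _ _ _ _ h => MS_symm h)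
    (fun _ _ _ _ h => MS_R h) (fun _ _ _ _ h => MS_MA h) hLS hAS
  obtain ⟨Kd, hKd⟩ := dia_of hmom hcodeg hwsum hgold htwin hpeel MD (fun _ _ _ _ h => MD_symm h)
    (fun _ _ _ _ h => MD_R h) (fun _ _ _ _ h => MD_MA h) hLD hAD
  obtain ⟨K, hK⟩ : ∃ K, K = max (max Ks Kd) 1 := ⟨_, rfl⟩
  have hK1 : 1 ≤ K := by rw [hK]; exact le_max_right _ _
  obtain ⟨N1, h1⟩ := hKs K (by rw [hK]; exact (le_max_left _ _).trans (le_max_left _ _))
  obtain ⟨N2, h2⟩ := hKd K (by rw [hK]; exact (le_max_right _ _).trans (le_max_left _ _))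
  obtain ⟨M2, hM2⟩ : ∃ M2, M2 = 2 ^ K := ⟨_, rfl⟩
  refine ⟨K, N1 + N2 + M2 + 1, fun n hn => ?_⟩
  have hn1 : 1 ≤ n := by omega
  obtain ⟨s0, s1⟩ := h1 n (by omega)
  obtain ⟨d0, d1⟩ := h2 n (by omega)
  have h2K : 2 ^ K ≤ n := by
    rw [← hM2]
    omega
  -- the conditions for the halves
  have cP : ∀ m, m < 2 * n → OPr m → OddPrimeBelow n m := fun m hm h => ⟨h.1, h.2, hm⟩
  have cA : ∀ m, m < 2 * n → (OPr m ∨ Rog K n m) → (OddPrimeBelow n m ∨ AlmostPrime K n m) := by
    intro m hm h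
    rcases h with h | h
    · exact Or.inl (cP m hm h)
    · exact Or.inr ⟨h.1, hm, len_le hK1 h2K hm h, h.2⟩
  have bnd : ∀ a ∈ Icc 0 n, ∀ b ∈ Icc 0 n, a ≠ b → a + b < 2 * n ∧ Nat.dist a b < 2 * n := by
    intro a ha b hb hab
    rw [mem_Icc] at ha hb
    refine ⟨by omega, ?_⟩
    simp only [Nat.dist]
    omega
  have sub : ∀ a ∈ Icc 1 n, a ∈ Icc 0 n := by
    intro a ha
    rw [mem_Icc] at ha ⊢
    omega
  -- the vertices
  obtain ⟨φ0, hφ0⟩ : ∃ φ : ℕ → V0 n, ∀ a ∈ Icc 0 n, (φ a : ℕ) = 2 * a := by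
    refine ⟨fun a => if h : a ≤ n then ⟨2 * a, even_two_mul a, by omega⟩ else ⟨0, Even.zero, by omega⟩, fun a ha => ?_⟩
    rw [mem_Icc] at ha
    simp only [ha.2, dif_pos]
  obtain ⟨φ2, hφ2⟩ : ∃ φ : ℕ → V2 n, ∀ a ∈ Icc 1 n, (φ a : ℕ) = 2 * a := by
    refine ⟨fun a => if h : 1 ≤ a ∧ a ≤ n then ⟨2 * a, even_two_mul a, by omega, by omega⟩ else
      ⟨2, even_two, le_rfl, by omega⟩, fun a ha => ?_⟩
    rw [mem_Icc] at ha
    simp only [ha, and_self, dif_pos]
  have surj0 : ∀ w : V0 n, ∃ a ∈ Icc 0 n, φ0 a = w := by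
    intro w
    obtain ⟨⟨k, hk⟩, hw2⟩ := w.2
    have hm : k ∈ Icc 0 n := mem_Icc.2 ⟨Nat.zero_le _, by omega⟩
    refine ⟨k, hm, Subtype.ext ?_⟩
    rw [hφ0 k hm]
    omega
  have surj2 : ∀ w : V2 n, ∃ a ∈ Icc 1 n, φ2 a = w := by
    intro w
    obtain ⟨⟨k, hk⟩, hw1, hw2⟩ := w.2
    have hm : k ∈ Icc 1 n := mem_Icc.2 ⟨by omega, by omega⟩
    refine ⟨k, hm, Subtype.ext ?_⟩
    rw [hφ2 k hm]
    omega
  have ne0 : Nonempty (V0 n) := ⟨φ0 0⟩
  have ne2 : Nonempty (V2 n) := ⟨φ2 0⟩
  refine ⟨?_, ?_, ?_, ?_⟩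
  · refine transfer φ0 (Icc 0 n) (MS K n) (fun a ha b hb h => ?_) surj0 21 ne0 s0
    obtain ⟨b1, b2⟩ := bnd a ha b hb h.1
    refine ⟨fun e => h.1 ?_, ?_, ?_⟩
    · have := congrArg Subtype.val e
      rw [hφ0 a ha, hφ0 b hb] at this
      omega
    · rw [hφ0 a ha, hφ0 b hb, sum_two]
      exact cP _ b1 h.2.1
    · rw [hφ0 a ha, hφ0 b hb, dist_two]
      exact cA _ b2 h.2.2
  · refine transfer φ0 (Icc 0 n) (MD K n) (fun a ha b hb h => ?_) surj0 21 ne0 d0
    obtain ⟨b1, b2⟩ := bnd a ha b hb h.1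
    refine ⟨fun e => h.1 ?_, ?_, ?_⟩
    · have := congrArg Subtype.val e
      rw [hφ0 a ha, hφ0 b hb] at this
      omega
    · rw [hφ0 a ha, hφ0 b hb, sum_two]
      exact cA _ b1 h.2.2
    · rw [hφ0 a ha, hφ0 b hb, dist_two]
      exact cP _ b2 h.2.1
  · refine transfer φ2 (Icc 1 n) (MS K n) (fun a ha b hb h => ?_) surj2 21 ne2 s1
    obtain ⟨b1, b2⟩ := bnd a (sub a ha) b (sub b hb) h.1
    refine ⟨fun e => h.1 ?_, Or.inr ?_, Or.inr ?_⟩
    · have := congrArg Subtype.val e
      rw [hφ2 a ha, hφ2 b hb] at this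
      omega
    · rw [hφ2 a ha, hφ2 b hb, sum_two]
      exact cP _ b1 h.2.1
    · rw [hφ2 a ha, hφ2 b hb, dist_two]
      exact cA _ b2 h.2.2
  · refine transfer φ2 (Icc 1 n) (MD K n) (fun a ha b hb h => ?_) surj2 21 ne2 d1
    obtain ⟨b1, b2⟩ := bnd a (sub a ha) b (sub b hb) h.1
    refine ⟨fun e => h.1 ?_, Or.inr ?_, Or.inr ?_⟩
    · have := congrArg Subtype.val e
      rw [hφ2 a ha, hφ2 b hb] at this
      omega
    · rw [hφ2 a ha, hφ2 b hb, sum_two]
      exact cA _ b1 h.2.2
    · rw [hφ2 a ha, hφ2 b hb, dist_two]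
      exact cP _ b2 h.2.1

end Pool.Agent.Results.MP_443e5f_co.MixedGoldbachGraphs
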