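import Pool.Agent.P8H7.GR.Main
import Pool.Agent.N384.MQ.Ex
import Pool.Agent.N384.MQ.Quot
import Pool.Agent.Results.MP_443e5f_co.AlmostAllVertices

/-!
# The Goldbach graphs: all the vertices near almost all the members of residue families are in the bounded part

Definitions used, from the starting file `Pool.Agent.Results.MP_443e5f_co.AlmostAllVertices`: the finite Goldbach graph
`goldbach n` on `{0, 2, 4, …, 2 n}` and the finite near Goldbach graph `nearGoldbach n` on `{2, 4, …, 2 n}`.
From Mathlib: `ZMod.stdAddChar`: the additive character `j ↦ exp (2 π i j / M)` of the integers modulo `M`; `ZMod.val`: the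
least residue.

The starting file shows that after the removal of at most `n / log ^ U n` vertices (some set of vertices, about which nothing
is known) there are at most `C` components, all of diameter at most `C`. As in the library file `SmoothVertices` all the
vertices of large degree are added to the bounded part. Here the vertices near almost all the members of every family of
residues with small Fourier coefficients are shown to belong to the bounded part, simultaneously for all the graphs of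
comparable or somewhat larger sizes. Such a family may have as few members as a fixed power of the logarithm, far fewer than
the families of small additive energy, which have at least a power of `n` many members.

The degree is the number of the representations of the vertex as a sum or as a difference of two primes. The proof combines
the passage from random integers with thin large spectra to the degrees in all the graphs of comparable sizes
(`Pool.Agent.N84.MD.GB.core`) with the compactness argument for families of residues (`Pool.Agent.N384.MQ.fin_formT`), with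
the number of binary digits adapted to the size of the graph and not to the modulus.
-/

set_option autoImplicit false

namespace Pool.Agent.Results.MP_443e5f_co.ResidueFamilies

open Finset
open Pool.Agent.Results.MP_443e5f_co.AlmostAllVertices (goldbach nearGoldbach)

/-- All the vertices of `G` with at most `n / (log n) ^ U` exceptions belong to `X`, the subgraph of `G` induced on `X` has at
most `C` connected components, any two vertices of the same component of this subgraph are at a distance of at most `C` in it,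
and every vertex of `X` has at least `c n / (log n) ^ 2` neighbours in `X`. -/
def Bounded {V : Type} (G : SimpleGraph V) (X : Set V) (C : ℕ) (c : ℝ) (U n : ℕ) : Prop :=
  (Xᶜ.ncard : ℝ) ≤ n / Real.log n ^ U ∧
    Nat.card (G.induce X).ConnectedComponent ≤ C ∧
    (∀ u v : X, (G.induce X).Reachable u v → (G.induce X).dist u v ≤ C) ∧
    ∀ u : X, c * (n / Real.log n ^ 2) ≤ (((G.induce X).neighborSet u).ncard : ℝ)

/-- `a` is a vertex of the Goldbach graph outside `X` or a vertex of the near Goldbach graph outside `Y`. -/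
def Outside (n : ℕ) (X : Set {a : ℕ // Even a ∧ a ≤ 2 * n}) (Y : Set {a : ℕ // Even a ∧ 2 ≤ a ∧ a ≤ 2 * n}) (a : ℕ) : Prop :=
  (∃ h : Even a ∧ a ≤ 2 * n, (⟨a, h⟩ : {a : ℕ // Even a ∧ a ≤ 2 * n}) ∉ X) ∨
    ∃ h : Even a ∧ 2 ≤ a ∧ a ≤ 2 * n, (⟨a, h⟩ : {a : ℕ // Even a ∧ 2 ≤ a ∧ a ≤ 2 * n}) ∉ Y

/-- The Fourier coefficients of the residues `y i`, `i ∈ s`, modulo `q` at the nonzero frequencies are at most
`η` times the number of the residues: `|∑ i ∈ s, e(h y_i / q)| ≤ η |s|` for all `h ≠ 0` modulo `q`. -/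
def Flat {ι : Type} (q : ℕ) [NeZero q] (η : ℝ) (s : Finset ι) (y : ι → ZMod q) : Prop :=
  ∀ h : ZMod q, h ≠ 0 → ‖∑ i ∈ s, (ZMod.stdAddChar (h * y i) : ℂ)‖ ≤ η * s.card

open Classical in
/-- There are absolute constants `C` and `c > 0` such that for every `U` there are sets `X n` of vertices of the finite Goldbach
graph `G_n` and `Y n` of vertices of the finite near Goldbach graph `G(n)` with the following properties.

(0) For all large `n`, all but at most `n / log ^ U n` vertices belong to `X n`, the subgraph induced on `X n` has at most `C`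
components, all of diameter at most `C`, and all its degrees are at least `c n / log ^ 2 n`; and the same for `Y n`.

(1) Let `κ ≠ 0`, `B`, `D`, `K`, `A` and `W` be fixed. There is a number `V` such that the following holds for all large `N`
and all integers `M` with `N / log ^ D N ≤ M ≤ B N`. Let `y i`, `i ∈ s`, be a finite family of residues modulo `M` whose
Fourier coefficients at the nonzero frequencies are at most `|s| / log ^ V M`, and let `c₀` be an integer with
`|c₀| ≤ B N`. Then for all the `i ∈ s`, with at most `|s| / log ^ W N` exceptions, and for ALL the graphs with a number `n`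
between `N / B` and `N log ^ K N`, ALL the vertices `a` with `|a - (c₀ + κ y_i)| ≤ log ^ A N` (with the least residue
`0 ≤ y_i < M`) belong to `X n` and to `Y n`.

(2), (3) Examples. The condition of (1) holds modulo all large primes `p` for:
* the quotients `j / r` of the integers `0 ≤ j < S` by the primes `r ≤ R`, if `log ^ (V + 4) p ≤ R < p` and `R ^ 2 ≤ S`;
  thus there are such explicit families with only `log ^ (3 V + 12) p` members;
* the cosets of all subgroups of the multiplicative group of an order of at least `p ^ (3/8) log ^ (3 V + 1) p`;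
* the residues `a b + g(a) + k(b)`, `a ∈ A`, `b ∈ B`, for arbitrary sets with `|A| |B| ≥ p log ^ (2 V) p` and arbitrary
  functions `g` and `k`;
* the values `f(n)`, `0 ≤ n < x`, of all integer polynomials of degree `d` whose leading coefficient is not divisible by
  `p`, if `x ^ d ≥ p log ^ C p`, where `C` depends on `d` and `V`. -/
theorem result : (∃ (C : ℕ) (c : ℝ), 0 < c ∧ ∀ U : ℕ, ∃ (X : ∀ n : ℕ, Set {a : ℕ // Even a ∧ a ≤ 2 * n})
    (Y : ∀ n : ℕ, Set {a : ℕ // Even a ∧ 2 ≤ a ∧ a ≤ 2 * n}),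
    (∃ n₀ : ℕ, ∀ n : ℕ, n₀ ≤ n → Bounded (goldbach n) (X n) C c U n ∧ Bounded (nearGoldbach n) (Y n) C c U n) ∧
    ∀ (κ : ℤ), κ ≠ 0 → ∀ B D K A W : ℕ, ∃ V N₀ : ℕ, ∀ N : ℕ, N₀ ≤ N → ∀ M : ℕ, M ≤ B * N →
      (N : ℝ) ≤ M * Real.log N ^ D → ∀ [NeZero M] (ι : Type) (s : Finset ι) (y : ι → ZMod M),
      Flat M (1 / Real.log M ^ V) s y → ∀ c₀ : ℤ, |c₀| ≤ B * N →
      ((s.filter fun i => ∃ n : ℕ, N ≤ B * n ∧ (n : ℝ) ≤ N * Real.log N ^ K ∧
        ∃ a : ℕ, |(((a : ℤ) - (c₀ + κ * ((y i).val : ℕ)) : ℤ) : ℝ)| ≤ Real.log N ^ A ∧ Outside n (X n) (Y n) a).card : ℝ) ≤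
        s.card / Real.log N ^ W) ∧
    (∀ V : ℕ, ∃ P₀ : ℕ, ∀ p : ℕ, P₀ ≤ p → ∀ [Fact p.Prime],
      (∀ R S : ℕ, Real.log p ^ (V + 4) ≤ R → R < p → R ^ 2 ≤ S →
        Flat p (1 / Real.log p ^ V) (((Icc 1 R).filter Nat.Prime) ×ˢ range S)
          (fun z => ((z.2 : ℕ) : ZMod p) * ((z.1 : ℕ) : ZMod p)⁻¹)) ∧
      (∀ (H : Subgroup (ZMod p)ˣ) (s : Finset (ZMod p)ˣ), (∀ u, u ∈ s ↔ u ∈ H) →
        (p : ℝ) ^ (3 / 8 : ℝ) * Real.log p ^ (3 * V + 1) ≤ s.card → ∀ x : ZMod p, x ≠ 0 →
        Flat p (1 / Real.log p ^ V) s (fun u => x * (u : ZMod p))) ∧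
      (∀ (A B : Finset (ZMod p)) (g k : ZMod p → ZMod p), (p : ℝ) * Real.log p ^ (2 * V) ≤ A.card * B.card →
        Flat p (1 / Real.log p ^ V) (A ×ˢ B) (fun z => z.1 * z.2 + g z.1 + k z.2))) ∧
    (∀ d V : ℕ, 1 ≤ d → ∃ C P₀ : ℕ, ∀ p : ℕ, P₀ ≤ p → ∀ [Fact p.Prime] (f : Polynomial ℤ), f.natDegree = d →
      ¬ (p : ℤ) ∣ f.leadingCoeff → ∀ x : ℕ, (p : ℝ) * Real.log p ^ C ≤ (x : ℝ) ^ d →
      Flat p (1 / Real.log p ^ V) (range x) (fun n => ((f.eval (n : ℤ) : ℤ) : ZMod p))) := by
  refine ⟨?_, fun V => ?_, fun d V hd => ?_⟩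
  · obtain ⟨C, c, hc, hall⟩ := Pool.Agent.Results.MP_443e5f_co.AlmostAllVertices.result
    obtain ⟨c₁, hc₁, n₁, hdeg⟩ := Pool.Agent.N84.MD.GB.deg2
    refine ⟨C * (C + 3) + C, min c (c₁ / 2), lt_min hc (by positivity), fun U => ?_⟩
    obtain ⟨n₂, h2⟩ := hall (U + 3)
    obtain ⟨n₃, h3⟩ := Pool.Agent.H373R2.T7.ev_L' (2 / c₁ + 1)
    have hex : ∀ n : ℕ, ∃ (X : Set {a : ℕ // Even a ∧ a ≤ 2 * n}) (Y : Set {a : ℕ // Even a ∧ 2 ≤ a ∧ a ≤ 2 * n}),
        n₁ + n₂ + n₃ + 2 ≤ n → (Bounded (goldbach n) X (C * (C + 3) + C) (min c (c₁ / 2)) U n ∧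
          Bounded (nearGoldbach n) Y (C * (C + 3) + C) (min c (c₁ / 2)) U n) ∧
          (∀ a, c₁ * (n / Real.log n ^ 2) ≤ (((goldbach n).neighborSet a).ncard : ℝ) → a ∈ X) ∧
          (∀ a, c₁ * (n / Real.log n ^ 2) ≤ (((nearGoldbach n).neighborSet a).ncard : ℝ) → a ∈ Y) := by
      intro n
      by_cases hn : n₁ + n₂ + n₃ + 2 ≤ n
      · obtain ⟨q1, q2⟩ := h2 n (by omega)
        have a3 := h3 n (by omega)
        have hn0 : (0 : ℝ) < n := by exact_mod_cast (by omega : 0 < n)
        have hL1 : 1 ≤ Real.log (n : ℝ) := by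
          have : 0 < 2 / c₁ := by positivity
          linarith
        have hL0 : 0 < Real.log (n : ℝ) := by linarith
        have hpos : 0 < (n : ℝ) / Real.log n ^ 2 := by positivity
        have hlarge : (n : ℝ) / Real.log n ^ (U + 3) ≤ c₁ / 2 * (n / Real.log n ^ 2) := by
          have e1 : (n : ℝ) / Real.log n ^ (U + 3) = (1 / Real.log n ^ (U + 1)) * (n / Real.log n ^ 2) := by
            rw [show U + 3 = (U + 1) + 2 by ring, pow_add _ (U + 1) 2]
            field_simp
          rw [e1]
          apply mul_le_mul_of_nonneg_right _ hpos.le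
          rw [div_le_iff₀ (by positivity)]
          have e2 : Real.log (n : ℝ) ≤ Real.log n ^ (U + 1) := le_self_pow₀ hL1 (by omega)
          have e3 : 2 / c₁ ≤ Real.log (n : ℝ) := by linarith
          rw [div_le_iff₀ hc₁] at e3
          nlinarith
        obtain ⟨X, ⟨x1, x2, x3, x4⟩, x5⟩ := Pool.Agent.N469.GG.absorb (goldbach n) C c c₁ (U + 3) n q1 hc₁ hpos hlarge
        obtain ⟨Y, ⟨y1, y2, y3, y4⟩, y5⟩ := Pool.Agent.N469.GG.absorb (nearGoldbach n) C c c₁ (U + 3) n q2 hc₁ hpos hlarge
        have hU : (n : ℝ) / Real.log n ^ (U + 3) ≤ n / Real.log n ^ U :=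
          div_le_div_of_nonneg_left hn0.le (by positivity) (pow_le_pow_right₀ hL1 (by omega))
        exact ⟨X, Y, fun _ => ⟨⟨⟨x1.trans hU, x2, x3, x4⟩, ⟨y1.trans hU, y2, y3, y4⟩⟩, x5, y5⟩⟩
      · exact ⟨Set.univ, Set.univ, fun h => absurd h hn⟩
    choose X Y hXY using hex
    -- a vertex outside the bounded part has few neighbours
    have hout : ∀ n : ℕ, n₁ + n₂ + n₃ + 2 ≤ n → ∀ a : ℕ, Outside n (X n) (Y n) a → Even a ∧ a ≤ 2 * n ∧
        ((Pool.Agent.N469.GG.Nb n a).card : ℝ) < c₁ * (n / Real.log n ^ 2) := by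
      intro n hn a ha
      obtain ⟨-, hX, hY⟩ := hXY n hn
      rcases ha with ⟨h, ha⟩ | ⟨h, ha⟩
      · refine ⟨h.1, h.2, ?_⟩
        by_contra hcon
        push Not at hcon
        refine ha (hX _ (hcon.trans ?_))
        exact_mod_cast Pool.Agent.N469.GG.nb_gold n a h
      · refine ⟨h.1, h.2.2, ?_⟩
        by_contra hcon
        push Not at hcon
        refine ha (hY _ (hcon.trans ?_))
        exact_mod_cast Pool.Agent.N469.GG.nb_near n a h
    refine ⟨X, Y, ⟨n₁ + n₂ + n₃ + 2, fun n hn => (hXY n hn).1⟩, fun κ hκ B D K A W => ?_⟩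
    obtain ⟨V, N₀, h4⟩ := Pool.Agent.P8H7.GR.resid c₁ n₁ hdeg κ hκ B B D K A W
    refine ⟨V, N₀ + B * (n₁ + n₂ + n₃ + 2) + 1, fun N hN M hM1 hM2 _ ι s y hf c₀ hc₀ => ?_⟩
    refine le_trans (Nat.cast_le.2 (card_le_card fun i hi => ?_)) (h4 N (by omega) M hM1 hM2 ι s y hf c₀ hc₀)
    rw [mem_filter] at hi ⊢
    obtain ⟨his, n, hn1, hn2, a, ha1, ha2⟩ := hi
    refine ⟨his, fun hcon => ?_⟩
    have hn : n₁ + n₂ + n₃ + 2 ≤ n := by
      by_contra hlt
      push Not at hlt
      have : B * n ≤ B * (n₁ + n₂ + n₃ + 2) := Nat.mul_le_mul_left _ hlt.le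
      omega
    obtain ⟨q1, q2, q3⟩ := hout n hn a ha2
    exact absurd (hcon n hn1 hn2 a ha1 q1 q2) (not_le.2 q3)
  · obtain ⟨P₁, h1⟩ := Pool.Agent.N384.MQ.flat_quot V
    obtain ⟨P₂, h2⟩ := Pool.Agent.N384.MQ.flat_coset V
    obtain ⟨P₃, h3⟩ := Pool.Agent.N384.MQ.flat_prod V
    exact ⟨P₁ + P₂ + P₃, fun p hp _ => ⟨fun R S => h1 p (by omega) R S, fun H s => h2 p (by omega) H s,
      fun A B g k => h3 p (by omega) A B g k⟩⟩
  · exact Pool.Agent.N384.MQ.flat_poly d V hd

end Pool.Agent.Results.MP_443e5f_co.ResidueFamilies
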