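import Pool.Agent.P8H7.GV.Main

/-!
# The Goldbach graphs: all the vertices near almost all members of thin families are in the bounded part

Definitions used, from the starting file `Pool.Agent.Results.MP_443e5f_co.AlmostAllVertices`: the finite Goldbach graph
`goldbach n` on `{0, 2, 4, …, 2 n}` and the finite near Goldbach graph `nearGoldbach n` on `{2, 4, …, 2 n}`.

The starting file shows that after the removal of at most `n / log ^ U n` vertices (some set of vertices, about which nothing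
is known) there are at most `C` components, all of diameter at most `C`. As in the library file `SmoothVertices` all the
vertices of large degree are added to the bounded part. Here the vertices near almost all the members of an ARBITRARY finite
family of integers are shown to belong to the bounded part, if the additive energy of some fixed order of the family is least
possible up to a power of the logarithm; the family may have as few as `n ^ (1 / h)` members. In particular this applies to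
the values of a quadratic polynomial at integers with restricted digits.

The degree is the number of the representations of the vertex as a sum or as a difference of two primes. Both are controlled
by the values of the exponential sum over the family, whose `2 h`-th moment is the energy. The proof combines the library
theorems on averages over families of small energy (`Pool.Agent.H560R3.GB.lam_e`, `Pool.Agent.R459.near_even`), the sieve
model for the primes (`Pool.Agent.W93.TD.det3`) and the bound for the energy of digitally restricted quadratic values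
(`Pool.Agent.TH872.GQ.quad_energy`).
-/

set_option autoImplicit false

namespace Pool.Agent.Results.MP_443e5f_co.ThinFamilies

open Finset
open Pool.Agent.Results.MP_443e5f_co.AlmostAllVertices (goldbach nearGoldbach)

/-- All the vertices of `G` with at most `n / (log n) ^ U` exceptions belong to `X`, the subgraph of `G` induced on `X` has at
most `C` connected components, any two vertices of the same component of this subgraph are at a distance of at most `C` in it,
and every vertex of `X` has at least `c n / (log n) ^ 2` neighbours in `X`. -/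
def Bounded {V : Type} (G : SimpleGraph V) (X : Set V) (C : ℕ) (c : ℝ) (U n : ℕ) : Prop :=
  (Xᶜ.ncard : ℝ) ≤ n / Real.log n ^ U ∧
    Nat.card (G.induce X).ConnectedComponent ≤ C ∧
    (∀ u v : X, (G.induce X).Reachable u v → (G.induce X).dist u v ≤ C) ∧
    ∀ u : X, c * (n / Real.log n ^ 2) ≤ (((G.induce X).neighborSet u).ncard : ℝ)

/-- `a` is a vertex of the Goldbach graph outside `X` or a vertex of the near Goldbach graph outside `Y`. -/
def Outside (n : ℕ) (X : Set {a : ℕ // Even a ∧ a ≤ 2 * n}) (Y : Set {a : ℕ // Even a ∧ 2 ≤ a ∧ a ≤ 2 * n}) (a : ℕ) : Prop :=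
  (∃ h : Even a ∧ a ≤ 2 * n, (⟨a, h⟩ : {a : ℕ // Even a ∧ a ≤ 2 * n}) ∉ X) ∨
    ∃ h : Even a ∧ 2 ≤ a ∧ a ≤ 2 * n, (⟨a, h⟩ : {a : ℕ // Even a ∧ 2 ≤ a ∧ a ≤ 2 * n}) ∉ Y

/-- The additive energy of order `h` of a finite family of integers `v i`: the number of solutions of
`v (a 1) + ... + v (a h) = v (b 1) + ... + v (b h)`. -/
noncomputable def energy (h : ℕ) {ι : Type} [Fintype ι] (v : ι → ℤ) : ℕ :=
  Nat.card {q : (Fin h → ι) × (Fin h → ι) // ∑ j, v (q.1 j) = ∑ j, v (q.2 j)}

/-- The number of representations of `t` as `v (a 1) + ... + v (a h)`. -/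
noncomputable def reps (h : ℕ) {ι : Type} [Fintype ι] (v : ι → ℤ) (t : ℤ) : ℕ :=
  Nat.card {a : Fin h → ι // ∑ j, v (a j) = t}

/-- The integers `0 ≤ m < b ^ k` whose `i`-th digit in base `b` belongs to `E i`, for all `i < k`. -/
def digital (b k : ℕ) (E : ℕ → Finset ℕ) : Finset ℕ := (range (b ^ k)).filter fun m => ∀ i < k, m / b ^ i % b ∈ E i

open Classical in
/-- There are absolute constants `C` and `c > 0` such that for every `U` there are sets `X n` of vertices of the finite Goldbach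
graph `G_n` and `Y n` of vertices of the finite near Goldbach graph `G(n)` with the following properties.

(0) For all large `n`, all but at most `n / log ^ U n` vertices belong to `X n`, the subgraph induced on `X n` has at most `C`
components, all of diameter at most `C`, and all its degrees are at least `c n / log ^ 2 n`; and the same for `Y n`.

Let `h ≥ 1`, `B`, `D`, `A`, `W` be fixed and let `n` be large.

(1) Let `v i`, `i ∈ ι`, be an arbitrary finite family of integers `≤ B n` whose additive energy of order `h` is at most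
`log ^ D n` times `(#ι) ^ (2 h) / n` (up to the power of the logarithm this is the least possible energy of a family with
members in `[0, n]`, and the family may have as few as `n ^ (1 / h)` members). Then for all the members of the family, with
at most `#ι / log ^ W n` exceptions, ALL the vertices `a` with `|a - v i| ≤ log ^ A n` belong to `X n` and to `Y n`.

(2) In particular this holds if no integer has more than `log ^ D n` representations as a sum of `h` members of the family,
and `(#ι) ^ h ≥ n / log ^ D n`.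

(3) Let the base `b ≥ 2` and the integers `κ ≠ 0` and `β` also be fixed, let `n / log ^ D n ≤ b ^ (2 k) ≤ B n`, let `E i`,
`i < k`, be arbitrary sets of at least two digits, and let `c₀` be an integer with `|c₀| ≤ B n`. Then for all the integers
`0 ≤ m < b ^ k` whose `i`-th digit belongs to `E i` for all `i < k`, up to a proportion of at most `1 / log ^ W n` of them, ALL
the vertices `a` with `|a - (c₀ + κ m ^ 2 + β m)| ≤ log ^ A n` belong to `X n` and to `Y n`. -/
theorem result : ∃ (C : ℕ) (c : ℝ), 0 < c ∧ ∀ U : ℕ, ∃ (X : ∀ n : ℕ, Set {a : ℕ // Even a ∧ a ≤ 2 * n})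
    (Y : ∀ n : ℕ, Set {a : ℕ // Even a ∧ 2 ≤ a ∧ a ≤ 2 * n}),
    (∃ n₀ : ℕ, ∀ n : ℕ, n₀ ≤ n → Bounded (goldbach n) (X n) C c U n ∧ Bounded (nearGoldbach n) (Y n) C c U n) ∧
    (∀ h B D A W : ℕ, 1 ≤ h → ∃ n₀ : ℕ, ∀ n : ℕ, n₀ ≤ n → ∀ (ι : Type) [Fintype ι] (v : ι → ℤ), (∀ i, v i ≤ B * n) →
      (energy h v : ℝ) * n ≤ Real.log n ^ D * (Fintype.card ι : ℝ) ^ (2 * h) →
      ((univ.filter fun i => ∃ a : ℕ, |(((a : ℤ) - v i : ℤ) : ℝ)| ≤ Real.log n ^ A ∧ Outside n (X n) (Y n) a).card : ℝ) ≤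
        Fintype.card ι / Real.log n ^ W) ∧
    (∀ h B D A W : ℕ, 1 ≤ h → ∃ n₀ : ℕ, ∀ n : ℕ, n₀ ≤ n → ∀ (ι : Type) [Fintype ι] (v : ι → ℤ), (∀ i, v i ≤ B * n) →
      (∀ t, (reps h v t : ℝ) ≤ Real.log n ^ D) → (n : ℝ) ≤ Real.log n ^ D * (Fintype.card ι : ℝ) ^ h →
      ((univ.filter fun i => ∃ a : ℕ, |(((a : ℤ) - v i : ℤ) : ℝ)| ≤ Real.log n ^ A ∧ Outside n (X n) (Y n) a).card : ℝ) ≤
        Fintype.card ι / Real.log n ^ W) ∧
    ∀ (b B D A W : ℕ) (κ β : ℤ), 2 ≤ b → κ ≠ 0 → ∃ n₀ : ℕ, ∀ n : ℕ, n₀ ≤ n → ∀ k : ℕ, b ^ (2 * k) ≤ B * n →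
      (n : ℝ) ≤ Real.log n ^ D * (b : ℝ) ^ (2 * k) → ∀ E : ℕ → Finset ℕ, (∀ i < k, E i ⊆ range b ∧ 2 ≤ (E i).card) →
      ∀ c₀ : ℤ, |c₀| ≤ B * n →
      (((digital b k E).filter fun m : ℕ => ∃ a : ℕ, |(((a : ℤ) - (c₀ + κ * (m : ℤ) ^ 2 + β * m) : ℤ) : ℝ)| ≤
        Real.log n ^ A ∧ Outside n (X n) (Y n) a).card : ℝ) ≤ ((digital b k E).card : ℝ) / Real.log n ^ W := by
  obtain ⟨C, c, hc, hall⟩ := Pool.Agent.Results.MP_443e5f_co.AlmostAllVertices.result
  obtain ⟨c₁, hc₁, n₁, hdeg⟩ := Pool.Agent.N469.GG.deg_low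
  refine ⟨C * (C + 3) + C, min c (c₁ / 2), lt_min hc (by positivity), fun U => ?_⟩
  obtain ⟨n₂, h2⟩ := hall (U + 3)
  obtain ⟨n₃, h3⟩ := Pool.Agent.H373R2.T7.ev_L' (2 / c₁ + 1)
  have hex : ∀ n : ℕ, ∃ (X : Set {a : ℕ // Even a ∧ a ≤ 2 * n}) (Y : Set {a : ℕ // Even a ∧ 2 ≤ a ∧ a ≤ 2 * n}),
      n₁ + n₂ + n₃ + 2 ≤ n → (Bounded (goldbach n) X (C * (C + 3) + C) (min c (c₁ / 2)) U n ∧
        Bounded (nearGoldbach n) Y (C * (C + 3) + C) (min c (c₁ / 2)) U n) ∧
        (∀ a, c₁ * (n / Real.log n ^ 2) ≤ (((goldbach n).neighborSet a).ncard : ℝ) → a ∈ X) ∧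
        (∀ a, c₁ * (n / Real.log n ^ 2) ≤ (((nearGoldbach n).neighborSet a).ncard : ℝ) → a ∈ Y) := by
    intro n
    by_cases hn : n₁ + n₂ + n₃ + 2 ≤ n
    · obtain ⟨q1, q2⟩ := h2 n (by omega)
      have a3 := h3 n (by omega)
      have hn0 : (0 : ℝ) < n := by exact_mod_cast (by omega : 0 < n)
      have hL1 : 1 ≤ Real.log (n : ℝ) := by
        have : 0 < 2 / c₁ := by positivity
        linarith
      have hL0 : 0 < Real.log (n : ℝ) := by linarith
      have hpos : 0 < (n : ℝ) / Real.log n ^ 2 := by positivity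
      have hlarge : (n : ℝ) / Real.log n ^ (U + 3) ≤ c₁ / 2 * (n / Real.log n ^ 2) := by
        have e1 : (n : ℝ) / Real.log n ^ (U + 3) = (1 / Real.log n ^ (U + 1)) * (n / Real.log n ^ 2) := by
          rw [show U + 3 = (U + 1) + 2 by ring, pow_add _ (U + 1) 2]
          field_simp
        rw [e1]
        apply mul_le_mul_of_nonneg_right _ hpos.le
        rw [div_le_iff₀ (by positivity)]
        have e2 : Real.log (n : ℝ) ≤ Real.log n ^ (U + 1) := le_self_pow₀ hL1 (by omega)
        have e3 : 2 / c₁ ≤ Real.log (n : ℝ) := by linarith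
        rw [div_le_iff₀ hc₁] at e3
        nlinarith
      obtain ⟨X, ⟨x1, x2, x3, x4⟩, x5⟩ := Pool.Agent.N469.GG.absorb (goldbach n) C c c₁ (U + 3) n q1 hc₁ hpos hlarge
      obtain ⟨Y, ⟨y1, y2, y3, y4⟩, y5⟩ := Pool.Agent.N469.GG.absorb (nearGoldbach n) C c c₁ (U + 3) n q2 hc₁ hpos hlarge
      have hU : (n : ℝ) / Real.log n ^ (U + 3) ≤ n / Real.log n ^ U :=
        div_le_div_of_nonneg_left hn0.le (by positivity) (pow_le_pow_right₀ hL1 (by omega))
      exact ⟨X, Y, fun _ => ⟨⟨⟨x1.trans hU, x2, x3, x4⟩, ⟨y1.trans hU, y2, y3, y4⟩⟩, x5, y5⟩⟩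
    · exact ⟨Set.univ, Set.univ, fun h => absurd h hn⟩
  choose X Y hXY using hex
  -- a vertex outside the bounded part has few neighbours
  have hout : ∀ n : ℕ, n₁ + n₂ + n₃ + 2 ≤ n → ∀ a : ℕ, Outside n (X n) (Y n) a → Even a ∧ a ≤ 2 * n ∧
      ((Pool.Agent.N469.GG.Nb n a).card : ℝ) < c₁ * (n / Real.log n ^ 2) := by
    intro n hn a ha
    obtain ⟨-, hX, hY⟩ := hXY n hn
    rcases ha with ⟨h, ha⟩ | ⟨h, ha⟩
    · refine ⟨h.1, h.2, ?_⟩
      by_contra hcon
      push Not at hcon
      refine ha (hX _ (hcon.trans ?_))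
      exact_mod_cast Pool.Agent.N469.GG.nb_gold n a h
    · refine ⟨h.1, h.2.2, ?_⟩
      by_contra hcon
      push Not at hcon
      refine ha (hY _ (hcon.trans ?_))
      exact_mod_cast Pool.Agent.N469.GG.nb_near n a h
  have first : ∀ h B D A W : ℕ, 1 ≤ h → ∃ n₀ : ℕ, ∀ n : ℕ, n₀ ≤ n → ∀ (ι : Type) [Fintype ι] (v : ι → ℤ),
      (∀ i, v i ≤ B * n) → (energy h v : ℝ) * n ≤ Real.log n ^ D * (Fintype.card ι : ℝ) ^ (2 * h) →
      ((univ.filter fun i => ∃ a : ℕ, |(((a : ℤ) - v i : ℤ) : ℝ)| ≤ Real.log n ^ A ∧ Outside n (X n) (Y n) a).card : ℝ) ≤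
        Fintype.card ι / Real.log n ^ W := by
    intro h B D A W hh
    obtain ⟨n₄, h4⟩ := Pool.Agent.P8H7.GV.thin c₁ n₁ hdeg h B D A W hh
    refine ⟨n₄ + n₁ + n₂ + n₃ + 2, fun n hn ι _ v hv hE => ?_⟩
    refine h4 n (by omega) ι v hv hE _ fun i hi => ?_
    obtain ⟨a, ha1, ha2⟩ := (mem_filter.1 hi).2
    exact ⟨a, ha1, hout n (by omega) a ha2⟩
  refine ⟨X, Y, ⟨n₁ + n₂ + n₃ + 2, fun n hn => (hXY n hn).1⟩, first, ?_, ?_⟩
  · intro h B D A W hh
    obtain ⟨n₄, h4⟩ := first h B (2 * D) A W hh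
    obtain ⟨n₅, h5⟩ := Pool.Agent.H373R2.T7.ev_L' 1
    refine ⟨n₄ + n₅, fun n hn ι _ v hv hJ hx => ?_⟩
    apply h4 n (by omega) ι v hv
    have hL := h5 n (by omega)
    have hL0 : 0 ≤ Real.log (n : ℝ) := by linarith
    have h6 : (energy h v : ℝ) ≤ (Fintype.card ι : ℝ) ^ h * Real.log n ^ D :=
      Pool.Agent.TH935.GF.En_le h v _ hJ
    calc (energy h v : ℝ) * n ≤ ((Fintype.card ι : ℝ) ^ h * Real.log n ^ D) * (Real.log n ^ D * (Fintype.card ι : ℝ) ^ h) :=
          mul_le_mul h6 hx (Nat.cast_nonneg _) (by positivity)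
      _ = Real.log n ^ (2 * D) * (Fintype.card ι : ℝ) ^ (2 * h) := by ring
  · intro b B D A W κ β hb hκ
    obtain ⟨n₄, h4⟩ := Pool.Agent.P8H7.GV.quad c₁ n₁ hdeg b B D A W hb κ β hκ
    refine ⟨n₄ + n₁ + n₂ + n₃ + 2, fun n hn k hk1 hk2 E hE c₀ hc₀ => ?_⟩
    refine h4 n (by omega) k hk1 hk2 E hE c₀ hc₀ (fun m : ℕ => ∃ a : ℕ,
      |(((a : ℤ) - (c₀ + κ * (m : ℤ) ^ 2 + β * m) : ℤ) : ℝ)| ≤ Real.log n ^ A ∧ Outside n (X n) (Y n) a) fun m hm => ?_
    obtain ⟨a, ha1, ha2⟩ := hm
    exact ⟨a, ha1, hout n (by omega) a ha2⟩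

end Pool.Agent.Results.MP_443e5f_co.ThinFamilies
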